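import Mathlib
import Pool.Agent.KS6_71.ML.Main
import Pool.Agent.KS6_71.ML.Planar

set_option autoImplicit false

/-!
# Automorphism groups of finite modular lattices of small order dimension

Q1 of MP_be50aa_co asks whether for every `k` the class of finite modular lattices of order dimension
at most `k` fails to be f-universal. We show that the class is f-universal for `k = 6` (hence for
every `k ≥ 6`), with lattices of height at most `14` and of cardinality at most
`4 (|G| ^ 2 + 3) ^ 3`, and that it is not f-universal for `k = 2`: a finite modular lattice of order
dimension at most two whose automorphism group has odd order is rigid. So the least `k` for which the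
class is f-universal is `3`, `4`, `5` or `6`.

Construction for `k = 6`. Let `α, β` be two permutations of a finite set `X` whose centralizer is `G`
(here `X = G × ℤ/|G|`). The lattice is a tower of five blocks, from the bottom `M_X`, `M_X × M_{X+1}`,
`M_X`, `M_X × M_{X+1}`, `M_X`, where `M_X` is the lattice of length two with set of atoms `X`;
consecutive blocks are linked by matchings of their atoms, and an element which is not at the bottom
of a block has to be at the top of all blocks at distance at least two below it. The blocks with one
factor can share two coordinates and the blocks with two factors can share four coordinates. Going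
around the first two (last three) levels the matchings compose to `α` (to `β`), so that the
automorphisms are the permutations commuting with `α` and `β`.
-/

namespace Pool.Agent.Results.MP_be50aa_co.SixDimensions

theorem result :
    (∀ (G : Type) [Group G] [Finite G],
      ∃ (L : Type) (_ : Lattice L) (_ : IsModularLattice L) (_ : Finite L),
        Nonempty (G ≃* (L ≃o L)) ∧
        Nonempty (L ↪o (Fin 6 → ℕ)) ∧
        Order.krullDim L ≤ ((14 : ℕ) : WithBot ℕ∞) ∧
        Nat.card L ≤ 4 * (Nat.card G ^ 2 + 3) ^ 3) ∧
    (∀ (L : Type) [Lattice L] [IsModularLattice L] [Finite L],
      Nonempty (L ↪o (Fin 2 → ℕ)) → Odd (Nat.card (L ≃o L)) → Nat.card (L ≃o L) = 1) := by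
  refine ⟨fun G _ _ => Pool.Agent.KS6_71.ML.main G, ?_⟩
  rintro L _ _ _ ⟨f⟩ hodd
  exact Pool.Agent.KS6_71.ML.Planar.odd_aut f hodd

end Pool.Agent.Results.MP_be50aa_co.SixDimensions
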